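import Pool.Agent.H31.RK2

set_option autoImplicit false

open Pool.Agent.H31 TopologicalSpace

theorem Pool.Agent.Results.MP_155eb7_gt.Neg.result :
    (∀ B : Set (Set ℝ), IsTopologicalBasis B → ∃ B0 B1 : Set (Set ℝ),
      B0 ∪ B1 = B ∧ Disjoint B0 B1 ∧ IsTopologicalBasis B0 ∧ IsTopologicalBasis B1) ∧
    ∃ ι : Type, Cardinal.mk ι = Cardinal.aleph 1 ∧
      ∃ B : Set (Set (ι → ℝ)), IsTopologicalBasis B ∧
        ∀ B0 B1 : Set (Set (ι → ℝ)), B0 ⊆ B → B1 ⊆ B → Disjoint B0 B1 →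
          ¬ (IsTopologicalBasis B0 ∧ IsTopologicalBasis B1) :=
  ⟨RK.real_res, Omega1.W, Omega1.mk_W, RK.not_res⟩
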